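import Pool.Agent.H389R2.CL.Up
import Pool.Agent.H389R2.CL.Lo
import Pool.Agent.H389R2.CL.ArcMem
import Pool.Agent.H160R2.SA.Arm

/-!
The random cluster model with `q = 1` at its self-dual point (critical bond percolation) on `δ ℤ²`
in a rectangle `D = (-A, B) × (0, H)` with Dobrushin boundary conditions: the counterclockwise
boundary arc from `a = t + i H` to `b = 0` is wired, the other one is free.

The collection of all open clusters is a random finite set of compact sets. Every weak limit, as
`δ → 0`, of its law (for the Hausdorff metric on nonempty compact sets of nonempty compact sets)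
has the following properties, almost surely: a member of the collection contains the wired arc;
every member of the collection which is not a single point has Hausdorff dimension exactly
`91 / 48`, already in every neighbourhood of each of its points. Such weak limits exist along a
subsequence of every sequence of meshes.

Definitions (in `Pool.Agent.H934R2.Expl.Model` and `Pool.Agent.H389R2.CL.Model`): `Rect` (the
domain), `pt`, `Rect.verts`, `Rect.edges` (the discrete domain), `Rect.wired` (boundary condition),
`cluAt` (the vertices of the cluster of a vertex), `csetAt`, `clAt` (the cluster as a compact set: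
its vertices and its edges), `coll` (the collection of all clusters), `collLaw` (its law, all
configurations of the edges being equally likely), and in `Pool.Agent.H389R2.CD.Fin`: `arc` (the
closed boundary arc from `a` counterclockwise to `b`).
-/

namespace Pool.Agent.Results.MP_b3e76a_pr.AllClusters

open MeasureTheory TopologicalSpace Filter Topology H934E Metric
open Pool.Agent.H389R2.CD Pool.Agent.H389R2.CL

theorem result :
    (∀ (R : Rect) (δ : ℕ → ℝ), (∀ i, 0 < δ i) → Tendsto δ atTop (𝓝 0) →
      ∃ φ : ℕ → ℕ, StrictMono φ ∧ ∃ μ : ProbabilityMeasure (NonemptyCompacts (NonemptyCompacts ℂ)),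
        Tendsto (fun i => collLaw R (δ (φ i))) atTop (𝓝 μ)) ∧
    (∀ (R : Rect) (δ : ℕ → ℝ), (∀ i, 0 < δ i) → Tendsto δ atTop (𝓝 0) →
      ∀ μ : ProbabilityMeasure (NonemptyCompacts (NonemptyCompacts ℂ)),
        Tendsto (fun i => collLaw R (δ i)) atTop (𝓝 μ) →
        ∀ᵐ (𝒞 : NonemptyCompacts (NonemptyCompacts ℂ))
          ∂(μ : Measure (NonemptyCompacts (NonemptyCompacts ℂ))),
          (∃ K ∈ 𝒞, arc R ⊆ (K : Set ℂ)) ∧
          ∀ K ∈ 𝒞, (K : Set ℂ).Nontrivial →
            dimH (K : Set ℂ) = 91 / 48 ∧
            ∀ w ∈ K, ∀ ε : ℝ, 0 < ε → dimH ((K : Set ℂ) ∩ ball w ε) = 91 / 48) := by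
  have hAr : ArS := Pool.Agent.H160R2.SA.arSharp
  have e : ENNReal.ofReal (91 / 48) = 91 / 48 := by
    rw [ENNReal.ofReal_div_of_pos (by norm_num)]
    norm_num
  refine ⟨fun R δ hδ hlim => coll_precompact R hδ hlim, ?_⟩
  intro R δ hδ hlim μ hμ
  filter_upwards [coll_upper hAr R hδ hlim hμ, coll_lower hAr R hδ hlim hμ,
    arc_mem R hδ hlim hμ] with 𝒞 h1 h2 h3
  refine ⟨h3, fun K hK hnt => ?_⟩
  rw [e] at h1 h2
  have hloc : ∀ w ∈ K, ∀ ε : ℝ, 0 < ε → dimH ((K : Set ℂ) ∩ ball w ε) = 91 / 48 :=
    fun w hw ε hε => le_antisymm ((dimH_mono Set.inter_subset_left).trans (h1 K hK))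
      (h2 K hK hnt w hw ε hε)
  refine ⟨le_antisymm (h1 K hK) ?_, hloc⟩
  obtain ⟨w, hw⟩ := K.nonempty
  exact (hloc w hw 1 one_pos).symm.le.trans (dimH_mono Set.inter_subset_left)

end Pool.Agent.Results.MP_b3e76a_pr.AllClusters
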