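import Pool.Agent.H731R4.Arcs.Touch

/-!
The critical FK interface for `q = 1` (bond percolation with `p = 1 / 2`) in a rectangle of bounded
aspect ratio, with the counterclockwise boundary arc from an arbitrary boundary vertex `a` to an
arbitrary boundary vertex `b` wired and the complementary arc free: the probability that the
interface touches a given boundary arc, for all arcs (on either side of the interface), is
comparable to the cube root of the cross-ratio, as for chordal SLE₆.
-/

namespace Pool.Agent.Results.MP_b3e76a_pr.BoundaryTouching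

open Finset

/-- Vertices of the square lattice. -/
abbrev Vertex := ℤ × ℤ

/-- Faces of the square lattice: `(x, y)` is the square `[x, x + 1] × [y, y + 1]`. -/
abbrev Face := ℤ × ℤ

/-- Edges: `(x, y, true)` joins `(x, y)` to `(x + 1, y)` and `(x, y, false)` joins `(x, y)` to
`(x, y + 1)`. -/
abbrev Edge := ℤ × ℤ × Bool

/-- First endpoint of an edge. -/
def src (e : Edge) : Vertex := (e.1, e.2.1)

/-- Second endpoint of an edge. -/
def tgt (e : Edge) : Vertex := if e.2.2 then (e.1 + 1, e.2.1) else (e.1, e.2.1 + 1)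

/-- The face below or to the left of an edge. -/
def lface (e : Edge) : Face := if e.2.2 then (e.1, e.2.1 - 1) else (e.1 - 1, e.2.1)

/-- The face above or to the right of an edge. -/
def rface (e : Edge) : Face := (e.1, e.2.1)

/-- `u` and `v` are joined by an edge of `F`. -/
def Adj (F : Set Edge) (u v : Vertex) : Prop :=
  ∃ e ∈ F, (src e = u ∧ tgt e = v) ∨ (src e = v ∧ tgt e = u)

/-- `u` and `v` are joined by a path of edges of `F`. -/
def Conn (F : Set Edge) (u v : Vertex) : Prop := Relation.ReflTransGen (Adj F) u v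

/-- The faces `f` and `g` are separated by an edge of `F`. -/
def DualAdj (F : Set Edge) (f g : Face) : Prop :=
  ∃ e ∈ F, (lface e = f ∧ rface e = g) ∨ (lface e = g ∧ rface e = f)

/-- `f` and `g` are joined by a dual path which crosses edges of `F` only. -/
def DualConn (F : Set Edge) (f g : Face) : Prop := Relation.ReflTransGen (DualAdj F) f g

/-- The edges of the rectangle `[0, m] × [0, n]`. -/
noncomputable def rect (m n : ℕ) : Finset Edge :=
  (Finset.Icc (0 : ℤ) m ×ˢ Finset.Icc (0 : ℤ) n ×ˢ (Finset.univ : Finset Bool)).filter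
    (fun e => (tgt e).1 ≤ m ∧ (tgt e).2 ≤ n)

/-- The boundary vertex number `i` of `[0, m] × [0, n]`, where the `2 (m + n)` boundary vertices
are numbered counterclockwise from `0` (the corner `(0, 0)`), and periodically. -/
def bdry (m n : ℕ) (i : ℤ) : Vertex :=
  if i % (2 * (m + n)) ≤ m then (i % (2 * (m + n)), 0)
  else if i % (2 * (m + n)) ≤ m + n then (m, i % (2 * (m + n)) - m)
  else if i % (2 * (m + n)) ≤ 2 * m + n then (2 * m + n - i % (2 * (m + n)), n)
  else (0, 2 * (m + n) - i % (2 * (m + n)))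

/-- The outer face next to the boundary edge number `i`, from `bdry i` to `bdry (i + 1)`. -/
def outerFace (m n : ℕ) (i : ℤ) : Face :=
  if i % (2 * (m + n)) < m then (i % (2 * (m + n)), -1)
  else if i % (2 * (m + n)) < m + n then (m, i % (2 * (m + n)) - m)
  else if i % (2 * (m + n)) < 2 * m + n then (2 * m + n - i % (2 * (m + n)) - 1, n)
  else (-1, 2 * (m + n) - i % (2 * (m + n)) - 1)

/-- The inner face next to the boundary edge number `i`. -/
def innerFace (m n : ℕ) (i : ℤ) : Face :=
  if i % (2 * (m + n)) < m then (i % (2 * (m + n)), 0)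
  else if i % (2 * (m + n)) < m + n then (m - 1, i % (2 * (m + n)) - m)
  else if i % (2 * (m + n)) < 2 * m + n then (2 * m + n - i % (2 * (m + n)) - 1, n - 1)
  else (0, 2 * (m + n) - i % (2 * (m + n)) - 1)

/-- The open cluster of the wired arc, that is, of the boundary vertices number `a`, ..., `b`. -/
def wired (m n : ℕ) (a b : ℤ) (F : Finset Edge) : Set Vertex :=
  {u | ∃ i : ℤ, (a ≤ i ∧ i ≤ b) ∧ Conn (↑F : Set Edge) (bdry m n i) u}

/-- The dual cluster of the free arc, that is, of the outer faces of the boundary edges number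
`b`, ..., `a + 2 (m + n) - 1`. -/
def free (m n : ℕ) (a b : ℤ) (F : Finset Edge) : Set Face :=
  {f | ∃ j : ℤ, (b ≤ j ∧ j < a + 2 * (m + n)) ∧
    DualConn (↑(rect m n \ F) : Set Edge) (outerFace m n j) f}

/-- The interface between the open cluster of the wired arc and the dual cluster of the free arc:
the set of the edges of the medial lattice which separate them. An edge of the medial lattice is a
pair of a vertex `u` and a face `f` having `u` as a corner. -/
def interface (m n : ℕ) (a b : ℤ) (F : Finset Edge) : Set (Vertex × Face) :=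
  {x | x.1 ∈ wired m n a b F ∧ x.2 ∈ free m n a b F ∧
    (x.1.1 = x.2.1 ∨ x.1.1 = x.2.1 + 1) ∧ (x.1.2 = x.2.2 ∨ x.1.2 = x.2.2 + 1)}

open Classical in
/-- The probability of `E` when every edge of the rectangle `[0, m] × [0, n]` is open with
probability `1 / 2` independently (the critical FK measure for `q = 1`); `F` is the set of the
open edges. -/
noncomputable def prob (m n : ℕ) (E : Finset Edge → Prop) : ℝ :=
  (((rect m n).powerset.filter E).card : ℝ) / 2 ^ (rect m n).card

/-- The interface touches the arc of the boundary vertices number `c`, ..., `d` of the free arc. -/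
def TouchFree (m n : ℕ) (a b c d : ℤ) (F : Finset Edge) : Prop :=
  ∃ x ∈ interface m n a b F, ∃ i : ℤ, (c ≤ i ∧ i ≤ d) ∧ x.1 = bdry m n i

/-- The interface touches the arc from `bdry c` to `bdry d` of the wired arc: it passes through
the inner face of a boundary edge of this arc. -/
def TouchWired (m n : ℕ) (a b c d : ℤ) (F : Finset Edge) : Prop :=
  ∃ x ∈ interface m n a b F, ∃ i : ℤ, (c ≤ i ∧ i < d) ∧ x.2 = innerFace m n i

/-- Distance of `x` to the multiples of `N`. -/
def circ (N x : ℤ) : ℤ := min (x % N) (N - x % N)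

/-- Distance along the boundary from the boundary vertex `i` to the nearest corner. -/
def corner (m n : ℕ) (i : ℤ) : ℤ :=
  min (min (circ (2 * (m + n)) i) (circ (2 * (m + n)) (i - m)))
    (min (circ (2 * (m + n)) (i - (m + n))) (circ (2 * (m + n)) (i - (2 * m + n))))

/-- The size `(t + 1) (t + 1 + r + s)` of the pair of boundary vertices `i`, `j`, where `t` is their
distance along the boundary and `r`, `s` are their distances to the nearest corner. -/
def size (m n : ℕ) (i j : ℤ) : ℤ :=
  (circ (2 * (m + n)) (j - i) + 1) *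
    (circ (2 * (m + n)) (j - i) + 1 + corner m n i + corner m n j)

theorem rect_eq (m n : ℕ) : rect m n = H974.RE 0 m 0 n := by
  ext e
  obtain ⟨x, y, _ | _⟩ := e
  · rw [H974.mem_RE_false]
    unfold rect
    rw [Finset.mem_filter]
    simp only [tgt, Finset.mem_product, Finset.mem_Icc,
      Finset.mem_univ, and_true, Bool.false_eq_true, if_false]
    omega
  · rw [H974.mem_RE_true]
    unfold rect
    rw [Finset.mem_filter]
    simp only [tgt, Finset.mem_product, Finset.mem_Icc,
      Finset.mem_univ, and_true, if_true]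
    omega

theorem prob_eq (m n : ℕ) (E E' : Finset Edge → Prop)
    (h : ∀ F, F ⊆ H974.RE 0 m 0 n → (E F ↔ E' F)) :
    prob m n E = H731C.P2 (H974.RE 0 m 0 n) E' := by
  unfold prob H731C.P2 H974.Pr
  rw [H973.Ex_half, rect_eq, Finset.card_filter]
  push_cast
  rw [div_eq_mul_inv, mul_comm]
  congr 1
  · rw [one_div, inv_pow]
  · apply Finset.sum_congr rfl
    intro F hF
    have hF' : F ⊆ H974.RE 0 m 0 n := Finset.mem_powerset.mp hF
    unfold H974.ind
    by_cases h5 : E F
    · rw [if_pos h5, if_pos ((h F hF').mp h5)]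
    · rw [if_neg h5, if_neg (fun h6 => h5 ((h F hF').mpr h6))]

theorem corner_outer {m n : ℕ} (hm : 1 ≤ m) (hn : 1 ≤ n) (j : ℤ) :
    ((bdry m n j).1 = (outerFace m n j).1 ∨ (bdry m n j).1 = (outerFace m n j).1 + 1) ∧
      ((bdry m n j).2 = (outerFace m n j).2 ∨ (bdry m n j).2 = (outerFace m n j).2 + 1) := by
  have hN : (0 : ℤ) < 2 * ((m : ℤ) + n) := by omega
  have h3 := Int.emod_nonneg j hN.ne'
  have h4 := Int.emod_lt_of_pos j hN
  unfold bdry outerFace
  generalize j % (2 * ((m : ℤ) + n)) = r at *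
  split_ifs
  all_goals (simp only [true_or, true_and, and_true]; try omega)

theorem corner_inner {m n : ℕ} (hm : 1 ≤ m) (hn : 1 ≤ n) (j : ℤ) :
    ((bdry m n j).1 = (innerFace m n j).1 ∨ (bdry m n j).1 = (innerFace m n j).1 + 1) ∧
      ((bdry m n j).2 = (innerFace m n j).2 ∨ (bdry m n j).2 = (innerFace m n j).2 + 1) := by
  have hN : (0 : ℤ) < 2 * ((m : ℤ) + n) := by omega
  have h3 := Int.emod_nonneg j hN.ne'
  have h4 := Int.emod_lt_of_pos j hN
  unfold bdry innerFace
  generalize j % (2 * ((m : ℤ) + n)) = r at *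
  split_ifs
  all_goals (simp only [true_or, true_and, and_true]; try omega)

theorem touchFree_iff {m n : ℕ} (hm : 1 ≤ m) (hn : 1 ≤ n) {a b c d : ℤ} (hbc : b < c)
    (hda : d < a + 2 * (m + n)) {F : Finset Edge} (hF : F ⊆ H974.RE 0 m 0 n) :
    TouchFree m n a b c d F ↔ H731A.AA m n a b c d F := by
  have e : ((↑F : Set H974.Edg) ∩ ↑(H974.RE 0 m 0 n)) = ↑F :=
    Set.inter_eq_left.mpr (by exact_mod_cast hF)
  constructor
  · rintro ⟨x, ⟨⟨i, hi, h1⟩, -⟩, j, hj, h2⟩
    refine ⟨i, j, hi, hj, ?_⟩
    rw [e]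
    rw [h2] at h1
    exact h1
  · rintro ⟨i, j, hi, hj, h1⟩
    rw [e] at h1
    exact ⟨(bdry m n j, outerFace m n j), ⟨⟨i, hi, h1⟩, ⟨j, ⟨by omega, by omega⟩,
      Relation.ReflTransGen.refl⟩, corner_outer hm hn j⟩, j, hj, rfl⟩

theorem touchWired_iff {m n : ℕ} (hm : 1 ≤ m) (hn : 1 ≤ n) {a b c d : ℤ} (hac : a ≤ c)
    (hdb : d ≤ b) {F : Finset Edge} :
    TouchWired m n a b c d F ↔ H731A.WA m n b (a + 2 * (m + n)) c d F := by
  have e : ((↑F : Set H974.Edg)ᶜ ∩ ↑(H974.RE 0 m 0 n)) = ↑(rect m n \ F) := by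
    rw [rect_eq, Finset.coe_sdiff, Set.sdiff_eq, Set.inter_comm]
  constructor
  · rintro ⟨x, ⟨-, ⟨j, hj, h1⟩, -⟩, i, hi, h2⟩
    refine ⟨i, j, hi, hj, ?_⟩
    rw [e]
    rw [h2] at h1
    exact h1
  · rintro ⟨i, j, hi, hj, h1⟩
    rw [e] at h1
    exact ⟨(bdry m n i, innerFace m n i), ⟨⟨i, ⟨by omega, by omega⟩,
      Relation.ReflTransGen.refl⟩, ⟨j, hj, h1⟩, corner_inner hm hn i⟩, i, hi, rfl⟩

/-- **The interface touches a boundary arc with probability comparable to that of SLE₆.** -/
theorem result (K : ℕ) : ∃ c₁ c₂ : ℝ, 0 < c₁ ∧ 0 < c₂ ∧ ∀ (m n : ℕ) (a b : ℤ), 1 ≤ m → 1 ≤ n →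
    m ≤ K * n → n ≤ K * m → a ≤ b → b < a + 2 * (m + n) →
    (∀ c d : ℤ, b < c → c ≤ d → d < a + 2 * (m + n) →
      (c₁ * (((size m n a b : ℝ) * size m n c d) / ((size m n a c : ℝ) * size m n b d)) ^
          ((1 : ℝ) / 3) ≤ prob m n (TouchFree m n a b c d) ∧
        prob m n (TouchFree m n a b c d) ≤
          c₂ * (((size m n a b : ℝ) * size m n c d) / ((size m n a c : ℝ) * size m n b d)) ^
            ((1 : ℝ) / 3)) ∧
      (c₁ * (((size m n b c : ℝ) * size m n d a) / ((size m n a c : ℝ) * size m n b d)) ^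
          ((1 : ℝ) / 3) ≤ 1 - prob m n (TouchFree m n a b c d) ∧
        1 - prob m n (TouchFree m n a b c d) ≤
          c₂ * (((size m n b c : ℝ) * size m n d a) / ((size m n a c : ℝ) * size m n b d)) ^
            ((1 : ℝ) / 3))) ∧
    (∀ c d : ℤ, a ≤ c → c < d → d ≤ b →
      c₁ * (((size m n a b : ℝ) * size m n c d) / ((size m n a d : ℝ) * size m n b c)) ^
          ((1 : ℝ) / 3) ≤ prob m n (TouchWired m n a b c d) ∧
        prob m n (TouchWired m n a b c d) ≤
          c₂ * (((size m n a b : ℝ) * size m n c d) / ((size m n a d : ℝ) * size m n b c)) ^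
            ((1 : ℝ) / 3)) := by
  obtain ⟨c0, C, hc, hC, h⟩ := H731A.AA_eta K
  obtain ⟨c0', C', hc', hC', h'⟩ := H731A.compl_eta K
  obtain ⟨c0'', C'', hc'', hC'', h''⟩ := H731A.WA_eta K
  refine ⟨min (min c0 c0') c0'', max (max C C') C'', lt_min (lt_min hc hc') hc'',
    lt_max_of_lt_right hC'', ?_⟩
  intro m n a b hm hn h1 h2 hab hba
  have hmz : (1 : ℤ) ≤ m := by exact_mod_cast hm
  have hnz : (1 : ℤ) ≤ n := by exact_mod_cast hn
  have hs : ∀ i j, (0 : ℝ) < size m n i j := fun i j => by
    have := H731A.sz_pos hmz hnz i j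
    exact_mod_cast (by linarith : (0 : ℤ) < H731A.sz m n i j)
  constructor
  · intro c d hbc hcd hda
    obtain ⟨g1, g2⟩ := h m n a b c d hmz hnz (by exact_mod_cast h1) (by exact_mod_cast h2) hab hbc
      hcd hda
    obtain ⟨g3, g4⟩ := h' m n a b c d hmz hnz (by exact_mod_cast h1) (by exact_mod_cast h2) hab
      hbc hcd hda
    have e := prob_eq m n (TouchFree m n a b c d) (H731A.AA m n a b c d)
      (fun F hF => touchFree_iff hm hn hbc hda hF)
    rw [← e] at g1 g2 g3 g4
    have e1 : ((size m n a b : ℝ) * size m n c d) / ((size m n a c : ℝ) * size m n b d) =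
      H731A.eta m n a b c d := rfl
    have e2 : ((size m n b c : ℝ) * size m n d a) / ((size m n a c : ℝ) * size m n b d) =
      H731A.eta' m n a b c d := rfl
    have p1 : 0 ≤ (((size m n a b : ℝ) * size m n c d) / ((size m n a c : ℝ) * size m n b d)) ^
        ((1 : ℝ) / 3) := by
      have q1 := hs a b
      have q2 := hs c d
      have q3 := hs a c
      have q4 := hs b d
      positivity
    have p2 : 0 ≤ (((size m n b c : ℝ) * size m n d a) / ((size m n a c : ℝ) * size m n b d)) ^
        ((1 : ℝ) / 3) := by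
      have q1 := hs b c
      have q2 := hs d a
      have q3 := hs a c
      have q4 := hs b d
      positivity
    rw [← e1] at g1 g2
    rw [← e2] at g3 g4
    exact ⟨⟨(mul_le_mul_of_nonneg_right ((min_le_left _ _).trans (min_le_left _ _)) p1).trans g1,
        g2.trans (mul_le_mul_of_nonneg_right ((le_max_left _ _).trans (le_max_left _ _)) p1)⟩,
      ⟨(mul_le_mul_of_nonneg_right ((min_le_left _ _).trans (min_le_right _ _)) p2).trans g3,
        g4.trans (mul_le_mul_of_nonneg_right ((le_max_right _ _).trans (le_max_left _ _)) p2)⟩⟩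
  · intro c d hac hcd hdb
    obtain ⟨g1, g2⟩ := h'' m n a b c d hmz hnz (by exact_mod_cast h1) (by exact_mod_cast h2) hac
      hcd hdb hba
    have e := prob_eq m n (TouchWired m n a b c d) (H731A.WA m n b (a + 2 * (m + n)) c d)
      (fun F _ => touchWired_iff hm hn hac hdb)
    rw [← e] at g1 g2
    have p1 : 0 ≤ (((size m n a b : ℝ) * size m n c d) / ((size m n a d : ℝ) * size m n b c)) ^
        ((1 : ℝ) / 3) := by
      have q1 := hs a b
      have q2 := hs c d
      have q3 := hs a d
      have q4 := hs b c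
      positivity
    exact ⟨(mul_le_mul_of_nonneg_right (min_le_right _ _) p1).trans g1,
      g2.trans (mul_le_mul_of_nonneg_right (le_max_right _ _) p1)⟩

end Pool.Agent.Results.MP_b3e76a_pr.BoundaryTouching
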