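import Pool.Agent.H731R5.Gr.Sc
import Pool.Agent.H985R3.TA.STA
import Pool.Agent.H934R3.SL.SL

/-!
The critical FK interface for `q = 1` (bond percolation with `p = 1 / 2`) in a rectangle of bounded
aspect ratio, with the counterclockwise boundary arc from an arbitrary boundary vertex `a` to an
arbitrary boundary vertex `b` wired and the complementary arc free: for every vertex `v` of the
rectangle, up to the boundary, the corners and the ends `a`, `b`, and every radius `r` up to half of
the distance `ρ` from `v` to the boundary, the probability that the interface comes within distance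
`r` of `v` is comparable to `((r + 1) / ρ) ^ (1 / 4)` times the cube root of a cross-ratio of `v`,
`a`, `b`: the Green function of chordal SLE₆.
-/

namespace Pool.Agent.Results.MP_b3e76a_pr.GreenFunction

open Finset

/-- Vertices of the square lattice. -/
abbrev Vertex := ℤ × ℤ

/-- Faces of the square lattice: `(x, y)` is the square `[x, x + 1] × [y, y + 1]`. -/
abbrev Face := ℤ × ℤ

/-- Edges: `(x, y, true)` joins `(x, y)` to `(x + 1, y)` and `(x, y, false)` joins `(x, y)` to
`(x, y + 1)`. -/
abbrev Edge := ℤ × ℤ × Bool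

/-- First endpoint of an edge. -/
def src (e : Edge) : Vertex := (e.1, e.2.1)

/-- Second endpoint of an edge. -/
def tgt (e : Edge) : Vertex := if e.2.2 then (e.1 + 1, e.2.1) else (e.1, e.2.1 + 1)

/-- The face below or to the left of an edge. -/
def lface (e : Edge) : Face := if e.2.2 then (e.1, e.2.1 - 1) else (e.1 - 1, e.2.1)

/-- The face above or to the right of an edge. -/
def rface (e : Edge) : Face := (e.1, e.2.1)

/-- `u` and `v` are joined by an edge of `F`. -/
def Adj (F : Set Edge) (u v : Vertex) : Prop :=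
  ∃ e ∈ F, (src e = u ∧ tgt e = v) ∨ (src e = v ∧ tgt e = u)

/-- `u` and `v` are joined by a path of edges of `F`. -/
def Conn (F : Set Edge) (u v : Vertex) : Prop := Relation.ReflTransGen (Adj F) u v

/-- The faces `f` and `g` are separated by an edge of `F`. -/
def DualAdj (F : Set Edge) (f g : Face) : Prop :=
  ∃ e ∈ F, (lface e = f ∧ rface e = g) ∨ (lface e = g ∧ rface e = f)

/-- `f` and `g` are joined by a dual path which crosses edges of `F` only. -/
def DualConn (F : Set Edge) (f g : Face) : Prop := Relation.ReflTransGen (DualAdj F) f g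

/-- The edges of the rectangle `[0, m] × [0, n]`. -/
noncomputable def rect (m n : ℕ) : Finset Edge :=
  (Finset.Icc (0 : ℤ) m ×ˢ Finset.Icc (0 : ℤ) n ×ˢ (Finset.univ : Finset Bool)).filter
    (fun e => (tgt e).1 ≤ m ∧ (tgt e).2 ≤ n)

/-- The boundary vertex number `i` of `[0, m] × [0, n]`, where the `2 (m + n)` boundary vertices
are numbered counterclockwise from `0` (the corner `(0, 0)`), and periodically. -/
def bdry (m n : ℕ) (i : ℤ) : Vertex :=
  if i % (2 * (m + n)) ≤ m then (i % (2 * (m + n)), 0)
  else if i % (2 * (m + n)) ≤ m + n then (m, i % (2 * (m + n)) - m)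
  else if i % (2 * (m + n)) ≤ 2 * m + n then (2 * m + n - i % (2 * (m + n)), n)
  else (0, 2 * (m + n) - i % (2 * (m + n)))

/-- The outer face next to the boundary edge number `i`, from `bdry i` to `bdry (i + 1)`. -/
def outerFace (m n : ℕ) (i : ℤ) : Face :=
  if i % (2 * (m + n)) < m then (i % (2 * (m + n)), -1)
  else if i % (2 * (m + n)) < m + n then (m, i % (2 * (m + n)) - m)
  else if i % (2 * (m + n)) < 2 * m + n then (2 * m + n - i % (2 * (m + n)) - 1, n)
  else (-1, 2 * (m + n) - i % (2 * (m + n)) - 1)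

/-- The open cluster of the wired arc, that is, of the boundary vertices number `a`, ..., `b`. -/
def wired (m n : ℕ) (a b : ℤ) (F : Finset Edge) : Set Vertex :=
  {u | ∃ i : ℤ, (a ≤ i ∧ i ≤ b) ∧ Conn (↑F : Set Edge) (bdry m n i) u}

/-- The dual cluster of the free arc, that is, of the outer faces of the boundary edges number
`b`, ..., `a + 2 (m + n) - 1`. -/
def free (m n : ℕ) (a b : ℤ) (F : Finset Edge) : Set Face :=
  {f | ∃ j : ℤ, (b ≤ j ∧ j < a + 2 * (m + n)) ∧
    DualConn (↑(rect m n \ F) : Set Edge) (outerFace m n j) f}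

/-- The interface between the open cluster of the wired arc and the dual cluster of the free arc:
the set of the edges of the medial lattice which separate them. An edge of the medial lattice is a
pair of a vertex `u` and a face `f` having `u` as a corner. -/
def interface (m n : ℕ) (a b : ℤ) (F : Finset Edge) : Set (Vertex × Face) :=
  {x | x.1 ∈ wired m n a b F ∧ x.2 ∈ free m n a b F ∧
    (x.1.1 = x.2.1 ∨ x.1.1 = x.2.1 + 1) ∧ (x.1.2 = x.2.2 ∨ x.1.2 = x.2.2 + 1)}

open Classical in
/-- The probability of `E` when every edge of the rectangle `[0, m] × [0, n]` is open with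
probability `1 / 2` independently (the critical FK measure for `q = 1`); `F` is the set of the
open edges. -/
noncomputable def prob (m n : ℕ) (E : Finset Edge → Prop) : ℝ :=
  (((rect m n).powerset.filter E).card : ℝ) / 2 ^ (rect m n).card

/-- The interface passes at a vertex at distance at most `r` (maximum norm) from `v`. -/
def Passes (m n : ℕ) (a b : ℤ) (v : Vertex) (r : ℕ) (F : Finset Edge) : Prop :=
  ∃ x ∈ interface m n a b F, |x.1.1 - v.1| ≤ r ∧ |x.1.2 - v.2| ≤ r

/-- Distance of `x` to the multiples of `N`. -/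
def circ (N x : ℤ) : ℤ := min (x % N) (N - x % N)

/-- Distance along the boundary from the boundary vertex `i` to the nearest corner. -/
def corner (m n : ℕ) (i : ℤ) : ℤ :=
  min (min (circ (2 * (m + n)) i) (circ (2 * (m + n)) (i - m)))
    (min (circ (2 * (m + n)) (i - (m + n))) (circ (2 * (m + n)) (i - (2 * m + n))))

/-- The size `(t + 1) (t + 1 + r + s)` of the pair of boundary vertices `i`, `j`, where `t` is their
distance along the boundary and `r`, `s` are their distances to the nearest corner. -/
def size (m n : ℕ) (i j : ℤ) : ℤ :=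
  (circ (2 * (m + n)) (j - i) + 1) *
    (circ (2 * (m + n)) (j - i) + 1 + corner m n i + corner m n j)

/-- One plus the distance from `v` to the vertical sides. -/
def distV (m : ℕ) (v : Vertex) : ℤ := min v.1 (m - v.1) + 1

/-- One plus the distance from `v` to the horizontal sides. -/
def distH (n : ℕ) (v : Vertex) : ℤ := min v.2 (n - v.2) + 1

/-- One plus the distance from `v` to the boundary of the rectangle. -/
def dist (m n : ℕ) (v : Vertex) : ℤ := min (distV m v) (distH n v)

/-- One plus the distance (maximum norm) from `v` to the boundary vertex number `j`. -/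
def distB (m n : ℕ) (v : Vertex) (j : ℤ) : ℤ :=
  max |v.1 - (bdry m n j).1| |v.2 - (bdry m n j).2| + 1

/-- The size `d (d + s)` of the pair of `v` and the boundary vertex number `j`, where `d` is one
plus their distance and `s` is the distance from `j` to the nearest corner. -/
def sizeB (m n : ℕ) (v : Vertex) (j : ℤ) : ℤ :=
  distB m n v j * (distB m n v j + corner m n j)

/-- The cross-ratio of the vertex `v` and the boundary vertices number `a`, `b`. -/
noncomputable def ratio (m n : ℕ) (a b : ℤ) (v : Vertex) : ℝ :=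
  ((distV m v : ℝ) * distH n v * size m n a b) / ((sizeB m n v a : ℝ) * sizeB m n v b)

theorem rect_eq (m n : ℕ) : rect m n = H974.RE 0 m 0 n := by
  ext e
  obtain ⟨x, y, _ | _⟩ := e
  · rw [H974.mem_RE_false]
    unfold rect
    rw [Finset.mem_filter]
    simp only [tgt, Finset.mem_product, Finset.mem_Icc,
      Finset.mem_univ, and_true, Bool.false_eq_true, if_false]
    omega
  · rw [H974.mem_RE_true]
    unfold rect
    rw [Finset.mem_filter]
    simp only [tgt, Finset.mem_product, Finset.mem_Icc,
      Finset.mem_univ, and_true, if_true]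
    omega

theorem prob_eq (m n : ℕ) (E E' : Finset Edge → Prop)
    (h : ∀ F, F ⊆ H974.RE 0 m 0 n → (E F ↔ E' F)) :
    prob m n E = H731C.P2 (H974.RE 0 m 0 n) E' := by
  unfold prob H731C.P2 H974.Pr
  rw [H973.Ex_half, rect_eq, Finset.card_filter]
  push_cast
  rw [div_eq_mul_inv, mul_comm]
  congr 1
  · rw [one_div, inv_pow]
  · apply Finset.sum_congr rfl
    intro F hF
    have hF' : F ⊆ H974.RE 0 m 0 n := Finset.mem_powerset.mp hF
    unfold H974.ind
    by_cases h5 : E F
    · rw [if_pos h5, if_pos ((h F hF').mp h5)]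
    · rw [if_neg h5, if_neg (fun h6 => h5 ((h F hF').mpr h6))]

theorem passes_iff {m n : ℕ} {a b : ℤ} {v : Vertex} {r : ℕ} {F : Finset Edge}
    (hF : F ⊆ H974.RE 0 m 0 n) :
    Passes m n a b v r F ↔ H731G.HitB m n a b v r F := by
  have e1 : ((↑F : Set H974.Edg) ∩ ↑(H974.RE 0 m 0 n)) = ↑F :=
    Set.inter_eq_left.mpr (by exact_mod_cast hF)
  have e2 : ((↑F : Set H974.Edg)ᶜ ∩ ↑(H974.RE 0 m 0 n)) = ↑(rect m n \ F) := by
    rw [rect_eq, Finset.coe_sdiff, Set.sdiff_eq, Set.inter_comm]
  constructor
  · rintro ⟨⟨u, f⟩, ⟨⟨i, hi, h1⟩, ⟨j, hj, h2⟩, h3, h4⟩, hr⟩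
    refine ⟨u, hr, ⟨i, hi, ?_⟩, f, ?_, j, hj, ?_⟩
    · rw [e1]; exact h1
    · simp only at h3 h4
      unfold H731G.cor
      omega
    · rw [e2]; exact h2
  · rintro ⟨u, hr, ⟨i, hi, h1⟩, f, h3, j, hj, h2⟩
    rw [e1] at h1
    rw [e2] at h2
    refine ⟨(u, f), ⟨⟨i, hi, h1⟩, ⟨j, hj, h2⟩, ?_⟩, hr⟩
    unfold H731G.cor at h3
    simp only
    omega

/-- **Green function of the interface, up to constants**: uniformly in the ends `a`, `b` of the
interface, the vertex `v` and the scale `r`. -/
theorem result (K : ℕ) : ∃ c₁ c₂ : ℝ, 0 < c₁ ∧ 0 < c₂ ∧ ∀ (m n : ℕ) (a b : ℤ), 1 ≤ m → 1 ≤ n →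
    m ≤ K * n → n ≤ K * m → a ≤ b → b < a + 2 * (m + n) →
    ∀ (v : Vertex) (r : ℕ), (0 ≤ v.1 ∧ v.1 ≤ m) → (0 ≤ v.2 ∧ v.2 ≤ n) →
    2 * (r : ℤ) ≤ dist m n v →
    c₁ * (((r : ℝ) + 1) / dist m n v) ^ ((1 : ℝ) / 4) * (ratio m n a b v) ^ ((1 : ℝ) / 3) ≤
        prob m n (Passes m n a b v r) ∧
      prob m n (Passes m n a b v r) ≤
        c₂ * (((r : ℝ) + 1) / dist m n v) ^ ((1 : ℝ) / 4) *
          (ratio m n a b v) ^ ((1 : ℝ) / 3) := by
  obtain ⟨c, C, hc, hC, h⟩ := H731G.green_scale H985T.st_A H934SL.st_L K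
  refine ⟨c, C, hc, hC, ?_⟩
  intro m n a b hm hn h1 h2 hab hba v r hv1 hv2 hr
  obtain ⟨g1, g2⟩ := h m n a b r v (by exact_mod_cast hm) (by exact_mod_cast hn)
    (by exact_mod_cast h1) (by exact_mod_cast h2) hab hba hv1 hv2 (by positivity) hr
  have e := prob_eq m n (Passes m n a b v r) (H731G.HitB m n a b v r)
    (fun F hF => passes_iff hF)
  rw [← e] at g1 g2
  have e1 : ratio m n a b v = H731G.HH m n a b v := rfl
  have e2 : dist m n v = min (H731G.px m v) (H731G.py n v) := rfl
  rw [e1, e2, mul_assoc, mul_assoc]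
  push_cast at g1 g2 ⊢
  exact ⟨g1, g2⟩

end Pool.Agent.Results.MP_b3e76a_pr.GreenFunction
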