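import Pool.Agent.H863R2.NL.Pow
import Pool.Agent.H863R2.NL.Inf

/-!
Critical bond percolation on the square lattice: the exponents of the number of nested layers
around the origin (the one-point nesting statistics of CLE₆).

`changes n ω` is the minimal number of colour changes of a path from the origin to the distance `n`,
i.e. the number of nested alternating (open / dual-open) layers around the origin.  Its generating
function is `E t ^ changes n ω ≍ n ^ ψ(t)`, `ψ(t) = 3/(4π²) (π²/9 - arccos²(t/2))`, `0 < t ≤ 1`.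

Definitions (in `Pool.Agent.H974R2.Model`, `Pool.Agent.H974R2.Infinite`,
`Pool.Agent.H863R2.NL.Defs`): `sqLattice`, `bondLaw`, `hlf` (`= 1/2`), `openGraph`; `Pt`, `Corner`,
`Free`, `Change`, `ReachIn`, `norm2`, `changes`.

Formalisation (modules `Pool.Agent.H863R2.{Cyl,Nest,NL}`): helpers 61, 8, 92, 93, 116, 149, 169, 170,
215, 221, 278, 287, 298, 329, 332, 352, 375, 405, 409, 415, 446, 454, 457, 465, 477, 506, 539, 545,
573, 574, 578, 653, 690, 699, 765, 768, 778, 790, 800, 819, 831, 837, 863, 880, 896, 903, 911, 913,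
930, 942, 949, 956, 972, 989; exact determinants and sharp eigenvalue sums: helper160 and his team
(`Pool.Agent.H160R2`); cylinder-plane dictionary: helper906; percolation library: helper974.
-/

namespace Pool.Agent.Results.MP_b3e76a_pr.NestingExponents

open MeasureTheory H974 Pool.Agent.H863R2.NL
open scoped Real

theorem result : ∀ t : ℝ, 0 < t → t ≤ 1 → ∃ c C : ℝ, 0 < c ∧ 0 < C ∧ ∀ n : ℕ, 1 ≤ n →
    c * (n : ℝ) ^ (3 / (4 * π ^ 2) * (π ^ 2 / 9 - Real.arccos (t / 2) ^ 2)) ≤
      ∫ ω, t ^ changes n ω ∂(bondLaw hlf) ∧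
    ∫ ω, t ^ changes n ω ∂(bondLaw hlf) ≤
      C * (n : ℝ) ^ (3 / (4 * π ^ 2) * (π ^ 2 / 9 - Real.arccos (t / 2) ^ 2)) := by
  intro t h0 h1
  obtain ⟨c, C, hc, hC, h⟩ := ET_pow h0 h1
  refine ⟨c, C, hc, hC, fun n hn => ?_⟩
  rw [int_changes n (fun m => t ^ m)]
  exact h n hn

end Pool.Agent.Results.MP_b3e76a_pr.NestingExponents
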